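import Pool.Agent.Helper6.LPB.St

/-!
# Project LPB: both bounds together
-/

set_option autoImplicit false

noncomputable section

namespace Pool.Agent.Helper6.LPB

open Finset
open Pool.Agent.Helper6.LP

/-- some rough `y ≤ C (log n) ^ 2`, and no rough `y ≤ c (log n) ^ 2` -/
def OrderSq (c C κ : ℝ) (n : ℕ) : Prop :=
  (∃ y : ℕ, 1 ≤ y ∧ y < n ∧ (y : ℝ) ≤ C * Real.log n ^ 2 ∧ Rough κ n y) ∧
  ∀ y : ℕ, 1 ≤ y → y < n → (y : ℝ) ≤ c * Real.log n ^ 2 → ¬ Rough κ n y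

open Classical in
theorem two (hU : ∃ κ : ℝ, 0 < κ ∧ ∀ ε : ℝ, 0 < ε → ∃ C : ℝ, 0 < C ∧ ∃ N₀ : ℕ, ∀ N : ℕ, N₀ ≤ N →
    (((Icc 1 N).filter (fun n => ¬ Goodk C κ n)).card : ℝ) ≤ ε * N) (hL : StLOW) :
    ∃ κ₀ : ℝ, 0 < κ₀ ∧ ∀ κ : ℝ, 0 < κ → κ ≤ κ₀ → ∀ ε : ℝ, 0 < ε → ∃ c C : ℝ, 0 < c ∧ 0 < C ∧ ∃ N₀ : ℕ, ∀ N : ℕ, N₀ ≤ N →
      (((Icc 1 N).filter (fun n => ¬ OrderSq c C κ n)).card : ℝ) ≤ ε * N := by
  obtain ⟨κ₀, hκ₀, hU⟩ := hU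
  refine ⟨κ₀, hκ₀, ?_⟩
  intro κ hκ hκκ ε hε
  obtain ⟨C, hC, N₁, h1⟩ := hU (ε / 2) (by linarith)
  obtain ⟨c, hc, N₂, h2⟩ := hL κ (ε / 2) hκ (by linarith)
  refine ⟨c, C, hc, hC, max N₁ N₂, ?_⟩
  intro N hN
  have e1 := h1 N (le_trans (le_max_left _ _) hN)
  have e2 := h2 N (le_trans (le_max_right _ _) hN)
  have hsub : (Icc 1 N).filter (fun n => ¬ OrderSq c C κ n) ⊆
      (Icc 1 N).filter (fun n => ¬ Goodk C κ₀ n) ∪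
        (Icc 1 N).filter (fun n : ℕ => ∃ y : ℕ, 1 ≤ y ∧ y < n ∧ (y : ℝ) ≤ c * Real.log n ^ 2 ∧ Rough κ n y) := by
    intro n hn
    rw [mem_filter] at hn
    obtain ⟨hn1, hn2⟩ := hn
    rw [mem_union, mem_filter, mem_filter]
    by_contra hcon
    rw [not_or] at hcon
    obtain ⟨a1, a2⟩ := hcon
    have b1 : Goodk C κ₀ n := by
      by_contra h
      exact a1 ⟨hn1, h⟩
    have b2 : ¬ ∃ y : ℕ, 1 ≤ y ∧ y < n ∧ (y : ℝ) ≤ c * Real.log n ^ 2 ∧ Rough κ n y := fun h => a2 ⟨hn1, h⟩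
    apply hn2
    constructor
    · obtain ⟨y, y1, y2, y3, y4⟩ := b1
      refine ⟨y, y1, y2, y3, ?_⟩
      intro q hq hqd
      have hn1' : (1 : ℝ) ≤ n := by
        rw [mem_Icc] at hn1
        exact_mod_cast hn1.1
      exact le_trans (Real.rpow_le_rpow_of_exponent_le hn1' hκκ) (y4 q hq hqd)
    · intro y y1 y2 y3 y4
      exact b2 ⟨y, y1, y2, y3, y4⟩
  have e3 : (((Icc 1 N).filter (fun n => ¬ OrderSq c C κ n)).card : ℝ) ≤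
      (((Icc 1 N).filter (fun n => ¬ Goodk C κ₀ n)).card : ℝ) +
        (((Icc 1 N).filter (fun n : ℕ => ∃ y : ℕ, 1 ≤ y ∧ y < n ∧ (y : ℝ) ≤ c * Real.log n ^ 2 ∧ Rough κ n y)).card : ℝ) := by
    exact_mod_cast (card_le_card hsub).trans (card_union_le _ _)
  linarith

end Pool.Agent.Helper6.LPB
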