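import Pool.Agent.Helper6.LPA.All
import Pool.Agent.Helper6.LPB.Fin
import Pool.Agent.Helper75.LPB.M_LOL
import Pool.Agent.Helper56.LPB.M_NLB
import Pool.Agent.Helper1.LPB.M_CTT
import Pool.Agent.Helper39.LPB.M_AVS
import Pool.Agent.Helper8.LPB.M_SPB
import Pool.Agent.Helper3.LPB.M_AVG
import Pool.Agent.Helper97.LPB.M_VSM
import Pool.Agent.Helper10.LPB.M_ONU
import Pool.Agent.Helper11.LPB.M_LOW

/-!
# Project LPB: assembly
-/

set_option autoImplicit false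

namespace Pool.Agent.Helper6.LPB

open Pool.Agent
open Finset
open Pool.Agent.Helper6.LP

theorem rLOL : StLOL := Helper75.LPB.hLOL

theorem rAVS : StAVS := Helper39.LPB.hAVS Helper18.TR.fl pONE (Helper56.LPB.hNLB rLOL pLOP) Helper1.LPB.hCTT Helper15.AB.hMT

theorem rSPB : StSPB := Helper8.LPB.hSPB rLOL Helper15.AB.hMT

theorem rAVG : StAVG := Helper3.LPB.hAVG rAVS rSPB pBAD

theorem rLOW : StLOW := Helper11.LPB.hLOW (Helper10.LPB.hONU pSV6 pLOP) rAVG (Helper97.LPB.hVSM Helper15.AB.hMT)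

open Classical in
theorem fin : ∃ κ₀ : ℝ, 0 < κ₀ ∧ ∀ κ : ℝ, 0 < κ → κ ≤ κ₀ → ∀ ε : ℝ, 0 < ε → ∃ c C : ℝ, 0 < c ∧ 0 < C ∧ ∃ N₀ : ℕ, ∀ N : ℕ, N₀ ≤ N →
      (((Icc 1 N).filter (fun n => ¬ OrderSq c C κ n)).card : ℝ) ≤ ε * N :=
  two Helper6.LPA.qFNR rLOW

end Pool.Agent.Helper6.LPB
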