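import Pool.Agent.Helper6.LP.Fn2
import Pool.Agent.Helper18.TR.St

/-!
# Project LPB (MP_5e9b96_nt): the lower bound for the least `y` in LPA (order `(log n) ^ 2` from both sides)
First moment: for all but `ε N` of the `n ≤ N` no `y ≤ c (log n) ^ 2` is such that all prime factors of the two numbers are at least `n ^ κ`. The primes `l > 32` are used, `P = 1`, `a = 0`, `n = m`. The mean value over `y ≤ K` of the sieve density `VV 32 w 1 0 y` is of order `1 / (log w) ^ 2`: up to a small power of `K` by the sieve in both variables (AVS),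
for the larger primes by the large sieve, as in LZ (BAD).
-/

set_option autoImplicit false

noncomputable section

namespace Pool.Agent.Helper6.LPB

open Finset
open Pool.Agent.Helper18.TR (StFL)
open Pool.Agent.Helper15.AB (StMT)
open Pool.Agent.Helper60.LZ (js bp bl StBAD)
open Pool.Agent.Helper98.LM (QQ)
open Pool.Agent.Helper6.LP

/-- the number of the pairs `(s, t)` modulo `l` with `l ∣ ff s t` -/
def NN (l : ℕ) : ℕ := ∑ t ∈ range l, (SS 1 0 t l).card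

/-- all prime factors of the two numbers are at least `n ^ κ` -/
def Rough (κ : ℝ) (n y : ℕ) : Prop := ∀ q : ℕ, q.Prime → q ∣ (n - y) + n * y ∨ q ∣ (n - y) ^ 2 + n * y ^ 2 → (n : ℝ) ^ κ ≤ q

/-- (LOL, no hypotheses.) Lower bound for the number of the classes. PROOF. The root `n₀ = y / (y + 1)` of `fa` (`l ∤ y + 1`). `4 fb = (2 n + y ^ 2 - 2 y) ^ 2 - y ^ 3 (y - 4)`. `χ = js (y - 2) l` is the symbol of `y (y - 4) ≠ 0`; if `χ = 1` then `y ^ 3 (y - 4) = y ^ 2 (y (y - 4))` is a nonzero square and `fb` has two different roots.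
`(y + 1) ^ 2 fb(n₀) = y ^ 3 (2 y + 1) ≠ 0`, so `n₀` is another root. So at least `3 = 2 + χ` classes for `χ = 1`, at least `1 = 2 + χ` for `χ = -1`. Models: `Pool/Agent/Helper41/LP/M_LOP.lean`, `Pool/Agent/Helper22/LZ/M_FYB.lean`. -/
def StLOL : Prop := ∀ y l : ℕ, l.Prime → 32 < l → 5 ≤ y → ¬ l ∣ y * (y - 4) * (y + 1) * (2 * y + 1) →
  2 + js (y - 2) l ≤ ((SS 1 0 y l).card : ℝ)

/-- (NLB, assume `hL : StLOL`, `hU : StLOP`.) PROOF. Upper bound: `|SS| ≤ 3` (LOP with `P = 1`, `2 ≤ t`; `l ∤ 1`), for `t ≤ 1` directly at most three roots (or: `NN l ≤ l * l` is not needed). Lower bound: sum LOL over `5 ≤ t < l`; there are two exceptional `t` (`l - 1`, `(l - 1) / 2`), at a cost of at most `3` each;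
`∑_{5 ≤ t < l} 2 = 2 l - 10`; `∑_{5 ≤ t < l} js (t - 2) l = -1 - (js 0 + 2 js 1 + 2 js 2) ≥ -4` (`∑_{u mod l} ((u ^ 2 - 4) / l) = -1`: see `Pool/Agent/Helper86/LP/M_CSM.lean`). -/
def StNLB : Prop := ∀ l : ℕ, l.Prime → 32 < l → 2 * (l : ℝ) - 20 ≤ NN l ∧ (NN l : ℝ) ≤ 3 * l

open Classical in
/-- (CTT, no hypotheses.) Counting pairs. PROOF. For fixed `y` the number of the `m` is `K ∏ |SS 1 0 y l| / l` up to `∏ |SS 1 0 y l|` (`Pool.Agent.Helper9.SU.cntT_ALL`, `S l = SS 1 0 (y % l) l`, and `SS 1 0 y l = SS 1 0 (y % l) l`). `∑_{y ≤ K} ∏_{l ∈ T} |SS 1 0 y l|` is the sum over the choices of `t l < l`, `l ∈ T`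
(or of the first variable) of the number of the `y ≤ K` with `y % l = t l`, that is `K / d + O(1)`, times `∏ |SS 1 0 (t l) l|` (`prod_sum`, or induction over `T`): `(K / d + O(1)) ∏ NN l`, `d = ∏ l`. `NN l ≤ l ^ 2`, so in all the error is at most `3 K d ^ 2`, `K ≥ 1`. -/
def StCTT : Prop := ∀ (K : ℕ) (T : Finset ℕ), 1 ≤ K → (∀ l ∈ T, l.Prime) →
  |((((Icc 1 K) ×ˢ (Icc 1 K)).filter (fun x : ℕ × ℕ => ∀ l ∈ T, (l : ℤ) ∣ ff x.1 x.2)).card : ℝ) - (K : ℝ) ^ 2 * ∏ l ∈ T, (NN l : ℝ) / (l : ℝ) ^ 2| ≤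
    3 * K * (∏ l ∈ T, (l : ℝ)) ^ 2

/-- (AVS, assume `hF : StFL`, `hO : StONE`, `hN : StNLB`, `hC : StCTT`, `hM : StMT`.) PROOF. FL with `κ = 3`, `ε = 1` for the pairs `(m, y) ∈ [1, K] ^ 2`, `Q = QQ 32 z`, `g l = NN l / l ^ 2 ≤ 3 / l ≤ 1 / 2`, level `z ^ B₁`, `R = 3 K z ^ (2 B₁)` (CTT): the number of the pairs without `l ∣ ff m y` is at most `2 K ^ 2 ∏ (1 - g l) + 3 K z ^ (3 B₁)`,
and `∏ (1 - g l) ≤ exp (- ∑ (2 / l - 20 / l ^ 2)) ≤ C / (log z) ^ 2` (NLB, Mertens). On the other side ONE with `ε = 1 / 2`, `P = 1`, `a = 0`, `M = K`: for each `y` the number of the `m` is at least `(1 / 2) K VV - z ^ B₂`. `B = 3 B₁ + B₂ + 2`. -/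
def StAVS : Prop := ∃ C : ℝ, 1 ≤ C ∧ ∃ B : ℕ, 1 ≤ B ∧ ∀ z K : ℕ, 3 ≤ z → z ^ B ≤ K →
  ∑ y ∈ Icc 5 K, VV 32 z 1 0 y ≤ C * (K / Real.log z ^ 2)

/-- (SPB, assume `hL : StLOL`, `hM : StMT`.) PROOF. `VV 32 w = VV 32 z ∏_{z < l ≤ w} (1 - |SS| / l) ≤ VV 32 z exp (- ∑_{z < l ≤ w} |SS| / l)`, `w = 2 ^ I - 1`; by LOL `∑ |SS| / l ≥ 2 ∑ 1 / l + ∑ js (y - 2) l / l - ∑_{l ∣ E} 3 / l`, `E = y (y - 4)(y + 1)(2 y + 1) ≤ 6 K ^ 4`, positive: it has at most `C` prime factors `l > z`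
(`K < (z + 1) ^ B`), each contributing at most `3 / z`. `2 ∑_{z < l ≤ w} 1 / l ≥ 2 log (I / log z) - C`. The sum of `js (y - 2) l / l` over `z < l < 2 ^ j0` is at least `- ∑ 1 / l ≥ - C` (`2 ^ j0 ≤ 512 K ^ 4 ≤ z ^ C`), over the blocks it is at least `- ∑ |bl (y - 2) j|`, and over the blocks `j1 ≤ j < I` at least `- log (I / j1) - C`. For the second
part `VV 32 z ≤ 1`. Model: `Pool/Agent/Helper21/LZ/M_GOO.lean`, splitting as in `Pool/Agent/Helper24/LP/M_TGO.lean`. -/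
def StSPB : Prop := ∀ B : ℕ, 1 ≤ B → ∃ C : ℝ, 1 ≤ C ∧ ∃ z₀ : ℕ, 40 ≤ z₀ ∧ ∀ z K j0 j1 I y : ℕ, z₀ ≤ z → z ^ B ≤ K → K < (z + 1) ^ B →
  256 * K ^ 4 ≤ 2 ^ j0 → 2 ^ j0 ≤ 512 * K ^ 4 → j0 ≤ j1 → j1 ≤ I → 5 ≤ y → y ≤ K →
  VV 32 (2 ^ I - 1) 1 0 y ≤ C * (VV 32 z 1 0 y * (Real.log z / I) ^ 2 * Real.exp (∑ j ∈ Ico j0 I, |bl (y - 2) j|)) ∧
  VV 32 (2 ^ I - 1) 1 0 y ≤ C * ((Real.log z / I) ^ 2 * (I / j1) * Real.exp (∑ j ∈ Ico j0 j1, |bl (y - 2) j|))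

/-- (AVG, assume `hA : StAVS`, `hS : StSPB`, `hB : StBAD`.) The mean value of the density. PROOF. `B` from AVS; `z` the largest integer with `z ^ B ≤ K`; `j0` the least integer with `256 K ^ 4 ≤ 2 ^ j0`; `j1 = ⌊I / (log I) ^ 6⌋` (or any `j1` with `I / (log I) ^ 7 ≤ j1 ≤ I / (log I) ^ 6`); `log z ≤ log K ≤ 3 log I`, `j0 ≤ j1 ≤ I` for large `I`.
(i) The `y` with `∑_{[j0, I)} |bl (y - 2) j| ≤ 1`: first part of SPB and AVS: `C e (log z / I) ^ 2 C K / (log z) ^ 2 = C K / I ^ 2 ≤ C c`. (ii) The `y` with `∑_{[j0, j1)} > 1`: at most `C j1 log j1 log K` of them (BAD, `t = y - 2`, also `y ≤ 5` causes no problem: take `t ∈ [4, K]`, and the single `y = 5` separately), each at most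
`C (log z / I) ^ 2 (I / j0) ≤ C (log I) ^ 2 / I` (second part with `j1 = j0`): total `≤ C (log I) ^ (-2)`. (iii) The other `y` with `∑_{[j0, I)} > 1`: at most `C I log I log K`, each at most `C e (log z / I) ^ 2 (I / j1) ≤ C (log I) ^ 9 / I ^ 2`: total `≤ C (log I) ^ 11 / I`. For large `I` all together at most `C c` with another `C` (independent of `c`). -/
def StAVG : Prop := ∃ C : ℝ, 1 ≤ C ∧ ∀ c : ℝ, 0 < c → ∃ I₀ : ℕ, ∀ I K : ℕ, I₀ ≤ I → I ≤ K → (K : ℝ) ≤ c * (I : ℝ) ^ 2 →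
  ∑ y ∈ Icc 5 K, VV 32 (2 ^ I - 1) 1 0 y ≤ C * c

/-- (VSM, assume `hM : StMT`.) The `y ≤ 4`. PROOF. For a prime `l > 32` the number `y + 1 ≤ 5` is invertible modulo `l`, so `fa` has a root and `|SS| ≥ 1`: `VV ≤ ∏_{32 < l ≤ w} (1 - 1 / l) ≤ exp (- ∑ 1 / l) ≤ C / log w`. -/
def StVSM : Prop := ∃ C : ℝ, 1 ≤ C ∧ ∀ w y : ℕ, 3 ≤ w → 1 ≤ y → y ≤ 4 → VV 32 w 1 0 y ≤ C / Real.log w

open Classical in
/-- (ONU, assume `hS : StSV6`, `hL : StLOP`.) One `y`, also `y = 1`, with any number of classes up to six. PROOF. As `Pool/Agent/Helper40/LP/M_ONE.lean`, upper bound only, `P = 1`, `a = 0`; `|SS 1 0 1 l| ≤ 3` for `l > 32` directly (`fa n 1 = 2 n - 1` has one root, `fb n 1 = n ^ 2 - n + 1` at most two), for `y ≥ 2` by LOP. -/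
def StONU : Prop := ∃ B : ℕ, 1 ≤ B ∧ ∀ y w M : ℕ, 2 ≤ w → 1 ≤ y →
  (((Icc 1 M).filter (fun m : ℕ => ∀ l ∈ QQ 32 w, ¬ (l : ℤ) ∣ ff m y)).card : ℝ) ≤ 2 * (M * VV 32 w 1 0 y) + (w : ℝ) ^ B

open Classical in
/-- (LOW, assume `hO : StONU`, `hA : StAVG`, `hV : StVSM`.) The first moment. PROOF. `B` from ONU; `δ = min (κ / 2) (1 / (2 B + 2))`, `I` with `2 ^ I ≤ N ^ δ < 2 ^ (I + 1)`, `w = 2 ^ I - 1` (`log N ≤ (I + 1) / δ`), `K = ⌊4 c (log N) ^ 2⌋ + I` (`≤ c' I ^ 2` with `c' = 20 c / δ ^ 2` for large `N`; `c` so small that `2 C c' ≤ ε / 4`, `C` from AVG).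
If `√N < n ≤ N` and `y ≤ c (log n) ^ 2 ≤ K`, `y < n`, is rough, then `n ^ κ ≥ N ^ (κ / 2) ≥ N ^ δ ≥ 2 ^ I > w`, so no prime `l ∈ QQ 32 w` divides one of the two numbers, whose product is `ff n y`. For each `1 ≤ y ≤ K` the number of these `n ≤ N` is at most `2 N VV 32 w 1 0 y + w ^ B`, `w ^ B ≤ N ^ (1/2)` (ONU, `M = N`). Sum over `5 ≤ y ≤ K`: AVG (`I ≤ K`);
over `y ≤ 4`: VSM; `K N ^ (1/2) ≤ (ε / 4) N`. The `n ≤ √N` are at most `√N`. Model for the last steps: `Pool/Agent/Helper6/LP/Fn2.lean`. -/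
def StLOW : Prop := ∀ κ ε : ℝ, 0 < κ → 0 < ε → ∃ c : ℝ, 0 < c ∧ ∃ N₀ : ℕ, ∀ N : ℕ, N₀ ≤ N →
  (((Icc 1 N).filter (fun n : ℕ => ∃ y : ℕ, 1 ≤ y ∧ y < n ∧ (y : ℝ) ≤ c * Real.log n ^ 2 ∧ Rough κ n y)).card : ℝ) ≤ ε * N

end Pool.Agent.Helper6.LPB
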